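import Pool.Agent.Helper446.Comp

/-!
# MP_7b562e_lc: no uniform threshold for complexity relative to `RT^1_2` solutions

There is a set `A` such that for every `N` the difference
`C(σ | ≥ N) - C(σ | RT^1_2(A))` is unbounded in `σ`.
-/

namespace Pool.Agent.Results.MP_7b562e_lc.NoThreshold

open Encodable Pool.Agent.Helper446.RE

/-! ### Definitions -/

/-- Finite binary strings. -/
abbrev Str := List Bool

open Classical in
/-- The first `n` bits of the characteristic sequence of `X`. -/
noncomputable def pre (X : Set ℕ) (n : ℕ) : Str := (List.range n).map fun i => decide (i ∈ X)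

/-- An oracle machine (Turing functional): a consistent r.e. set of axioms `ax τ p σ`, read as: with
oracle information `τ` (an initial segment of the oracle), program `p` outputs `σ`. -/
structure OracleMachine where
  ax : Str → Str → Str → Prop
  re : REPred fun q : Str × Str × Str => ax q.1 q.2.1 q.2.2
  cons : ∀ τ τ' p σ σ', τ <+: τ' → ax τ p σ → ax τ' p σ' → σ = σ'

/-- With oracle `X`, program `p` outputs `σ`. -/
def OracleMachine.Out (U : OracleMachine) (X : Set ℕ) (p σ : Str) : Prop := ∃ n, U.ax (pre X n) p σ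

/-- `C^X(σ)` with respect to `U`. -/
noncomputable def CO (U : OracleMachine) (X : Set ℕ) (σ : Str) : ℕ∞ :=
  ⨅ (p : Str) (_ : U.Out X p σ), (p.length : ℕ∞)

/-- Universal (optimal) oracle machines. -/
def OracleMachine.Optimal (U : OracleMachine) : Prop :=
  ∀ U' : OracleMachine, ∃ c : ℕ, ∀ X σ, CO U X σ ≤ CO U' X σ + c

/-- Conditional machines: partial computable functions of a program and a number. -/
def IsMachine (V : Str → ℕ →. Str) : Prop := Partrec fun q : Str × ℕ => V q.1 q.2

/-- `C(σ | n)` with respect to `V`. -/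
noncomputable def CM (V : Str → ℕ →. Str) (σ : Str) (n : ℕ) : ℕ∞ :=
  ⨅ (p : Str) (_ : σ ∈ V p n), (p.length : ℕ∞)

/-- Universal (optimal) conditional machines. -/
def OptimalM (V : Str → ℕ →. Str) : Prop :=
  IsMachine V ∧ ∀ V' : Str → ℕ →. Str, IsMachine V' → ∃ c : ℕ, ∀ σ n, CM V σ n ≤ CM V' σ n + c

/-- `RT^1_2(A)`: all infinite subsets of `A` and of its complement. -/
def RT12 (A : Set ℕ) : Set (Set ℕ) := {X | X.Infinite ∧ (X ⊆ A ∨ X ⊆ Aᶜ)}

/-- `C(σ | F) = max_{X ∈ F} C^X(σ)`. -/
noncomputable def Cfam (U : OracleMachine) (σ : Str) (F : Set (Set ℕ)) : ℕ∞ := ⨆ X ∈ F, CO U X σ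

/-- `C(σ | ≥ N) = max_{n ≥ N} C(σ | n)`. -/
noncomputable def Cge (V : Str → ℕ →. Str) (σ : Str) (N : ℕ) : ℕ∞ := ⨆ n ≥ N, CM V σ n

/-! ### Computability toolbox -/

section tools

variable {α : Type*} [Primcodable α]

@[fun_prop] lemma cdiv {f g : α → ℕ} (hf : Computable f) (hg : Computable g) :
    Computable (fun x => f x / g x) := Primrec.nat_div.to_comp.comp hf hg

@[fun_prop] lemma cpow {f g : α → ℕ} (hf : Computable f) (hg : Computable g) :
    Computable (fun x => f x ^ g x) := by
  have h : Primrec₂ ((· ^ ·) : ℕ → ℕ → ℕ) := Primrec₂.unpaired'.1 Nat.Primrec.pow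
  exact h.to_comp.comp hf hg

@[fun_prop] lemma creplicate {f : α → ℕ} (hf : Computable f) :
    Computable (fun x => List.replicate (f x) true) := by
  have h : Primrec fun n : ℕ => List.replicate n true := by
    refine (Primrec.list_map Primrec.list_range
      (Primrec.const true).to₂).of_eq fun n => ?_
    simp
  exact h.to_comp.comp hf

/-- The graph of a partial computable function is r.e. -/
lemma re_graph {β : Type*} [Primcodable β] {f : α →. β} (hf : Partrec f) :
    REPred fun q : α × β => q.2 ∈ f q.1 := by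
  classical
  have h1 : Partrec fun q : α × β => (f q.1).bind fun b =>
      ((bif decide (b = q.2) then some () else none : Option Unit) : Part Unit) := by
    refine Partrec.bind (hf.comp Computable.fst) ?_
    refine Computable.ofOption ?_
    refine Computable.cond ?_ (Computable.const _) (Computable.const _)
    have : ComputablePred fun t : (α × β) × β => t.2 = t.1.2 :=
      cp_eq Computable.snd (Computable.snd.comp Computable.fst)
    exact cdecide this
  refine h1.of_eq fun q => ?_
  ext u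
  simp only [Part.mem_bind_iff, Part.mem_assert_iff, Part.mem_some_iff]
  constructor
  · rintro ⟨b, hb, hu⟩
    by_cases hbq : b = q.2
    · subst hbq; exact ⟨hb, trivial⟩
    · simp [hbq] at hu
  · rintro ⟨hq, -⟩
    exact ⟨q.2, hq, by simp⟩

end tools

/-! ### Strings as numbers -/

/-- The value of a string (little-endian). -/
def val (l : Str) : ℕ := l.foldr (fun b acc => bif b then 2 * acc + 1 else 2 * acc) 0

lemma val_cons (b : Bool) (l : Str) : val (b :: l) = bif b then 2 * val l + 1 else 2 * val l := rfl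

lemma val_lt (l : Str) : val l < 2 ^ l.length := by
  induction l with
  | nil => simp [val]
  | cons b l ih =>
    rw [val_cons, List.length_cons, pow_succ]
    cases b <;> simp <;> omega

lemma val_inj : ∀ l l' : Str, l.length = l'.length → val l = val l' → l = l'
  | [], [], _, _ => rfl
  | [], _ :: _, h, _ => by simp at h
  | _ :: _, [], h, _ => by simp at h
  | b :: l, b' :: l', h, hv => by
    rw [val_cons, val_cons] at hv
    have hl : l.length = l'.length := by simpa using h
    cases b <;> cases b' <;> simp at hv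
    · rw [val_inj l l' hl hv]
    · omega
    · omega
    · rw [val_inj l l' hl hv]

lemma val_surj (m w : ℕ) (h : w < 2 ^ m) : ∃ l : Str, l.length = m ∧ val l = w := by
  induction m generalizing w with
  | zero => exact ⟨[], rfl, by simp at h; simp [val, h]⟩
  | succ m ih =>
    rw [pow_succ] at h
    obtain ⟨l, hl, hv⟩ := ih (w / 2) (by omega)
    refine ⟨decide (w % 2 = 1) :: l, by simp [hl], ?_⟩
    rw [val_cons, hv]
    by_cases h2 : w % 2 = 1
    · simp [h2]; omega
    · simp [h2]; omega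

@[fun_prop] lemma cval {α : Type*} [Primcodable α] {f : α → Str} (hf : Computable f) :
    Computable (fun x => val (f x)) := by
  have h : Primrec val := by
    unfold val
    refine Primrec.list_foldr (h := fun (_ : Str) (q : Bool × ℕ) =>
      bif q.1 then 2 * q.2 + 1 else 2 * q.2) Primrec.id (Primrec.const 0) ?_
    have h2 : Primrec fun a : Str × (Bool × ℕ) => 2 * a.2.2 :=
      Primrec.nat_mul.comp (Primrec.const 2) (Primrec.snd.comp Primrec.snd)
    exact Primrec.cond (Primrec.fst.comp Primrec.snd) (Primrec.succ.comp h2) h2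
  exact h.to_comp.comp hf

/-- Fewer than `2^k` strings have length less than `k`. -/
lemma pigeon (k : ℕ) (P : ℕ → Str) (hP : ∀ v < 2 ^ k, (P v).length < k)
    (hinj : ∀ v < 2 ^ k, ∀ v' < 2 ^ k, P v = P v' → v = v') : False := by
  have h1 : ∀ l : Str, l.length < k → 2 ^ l.length + val l ∈ Finset.Ico 1 (2 ^ k) := by
    intro l hl
    have h2 := val_lt l
    have h3 : 2 ^ (l.length + 1) ≤ 2 ^ k := Nat.pow_le_pow_right (by norm_num) hl
    rw [pow_succ] at h3
    rw [Finset.mem_Ico]
    have := Nat.one_le_two_pow (n := l.length)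
    omega
  have h2 := Finset.exists_ne_map_eq_of_card_lt_of_maps_to
    (s := Finset.range (2 ^ k)) (t := Finset.Ico 1 (2 ^ k))
    (f := fun v => 2 ^ (P v).length + val (P v))
    (by rw [Finset.card_range, Nat.card_Ico]; have := Nat.one_le_two_pow (n := k); omega)
    (by intro v hv; exact h1 _ (hP v (by simpa using hv)))
  obtain ⟨v, hv, v', hv', hne, heq⟩ := h2
  simp only [Finset.mem_range] at hv hv'
  refine hne (hinj v hv v' hv' ?_)
  have a1 := val_lt (P v)
  have a2 := val_lt (P v')
  have hlen : (P v).length = (P v').length := by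
    rcases lt_trichotomy (P v).length (P v').length with h | h | h
    · have : 2 ^ ((P v).length + 1) ≤ 2 ^ (P v').length := Nat.pow_le_pow_right (by norm_num) h
      rw [pow_succ] at this
      omega
    · exact h
    · have : 2 ^ ((P v').length + 1) ≤ 2 ^ (P v).length := Nat.pow_le_pow_right (by norm_num) h
      rw [pow_succ] at this
      omega
  refine val_inj _ _ hlen ?_
  simp only [hlen] at heq
  omega

lemma decomp {a a' : ℕ} {e e' : Str}
    (h : List.replicate a true ++ false :: e = List.replicate a' true ++ false :: e') :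
    a = a' ∧ e = e' := by
  induction a generalizing a' with
  | zero =>
    cases a' with
    | zero => simpa using h
    | succ a' => simp [List.replicate_succ] at h
  | succ a ih =>
    cases a' with
    | zero => simp [List.replicate_succ] at h
    | succ a' =>
      rw [List.replicate_succ, List.replicate_succ, List.cons_append, List.cons_append,
        List.cons.injEq] at h
      obtain ⟨rfl, rfl⟩ := ih h.2
      exact ⟨rfl, rfl⟩

/-! ### The next element -/

/-- `x` is the least position `≥ a` with a `1` in `τ`. -/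
def Next (τ : Str) (a x : ℕ) : Prop :=
  a ≤ x ∧ τ[x]? = some true ∧ ∀ y < x, y < a ∨ τ[y]? ≠ some true

lemma next_unique {τ τ' : Str} {a x x' : ℕ} (h : τ <+: τ') (hx : Next τ a x) (hx' : Next τ' a x') :
    x = x' := by
  obtain ⟨t, rfl⟩ := h
  obtain ⟨h1, h2, h3⟩ := hx
  obtain ⟨h1', h2', h3'⟩ := hx'
  have hxl : x < τ.length := by
    by_contra hcon
    rw [List.getElem?_eq_none (by omega)] at h2
    simp at h2
  rcases lt_trichotomy x x' with hlt | heq | hlt
  · rcases h3' x hlt with h | h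
    · omega
    · rw [List.getElem?_append_left hxl] at h
      exact absurd h2 h
  · exact heq
  · rcases h3 x' hlt with h | h
    · omega
    · rw [List.getElem?_append_left (by omega)] at h2'
      exact absurd h2' h

lemma pre_get (X : Set ℕ) (n x : ℕ) : (pre X n)[x]? = some true ↔ x < n ∧ x ∈ X := by
  classical
  unfold pre
  rw [List.getElem?_map]
  by_cases h : x < n
  · rw [List.getElem?_range h]
    simp [h]
  · rw [List.getElem?_eq_none (by simpa using h)]
    simp [h]

lemma exists_next {X : Set ℕ} (hX : X.Infinite) (a : ℕ) : ∃ x, x ∈ X ∧ Next (pre X (x + 1)) a x := by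
  classical
  have hex : ∃ x, a ≤ x ∧ x ∈ X := by
    obtain ⟨x, hx, hax⟩ := hX.exists_gt a
    exact ⟨x, hax.le, hx⟩
  refine ⟨Nat.find hex, (Nat.find_spec hex).2, (Nat.find_spec hex).1, ?_, ?_⟩
  · rw [pre_get]; exact ⟨by omega, (Nat.find_spec hex).2⟩
  · intro y hy
    by_cases hya : y < a
    · exact Or.inl hya
    · refine Or.inr fun h => ?_
      rw [pre_get] at h
      exact Nat.find_min hex hy ⟨by omega, h.2⟩

lemma next_re {α : Type*} [Primcodable α] {τ : α → Str} {a x : α → ℕ} (hτ : Computable τ)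
    (ha : Computable a) (hx : Computable x) : REPred fun q => Next (τ q) (a q) (x q) := by
  refine and (le ha hx) (and (eq (by fun_prop) (by fun_prop)) ?_)
  refine all_lt (p := fun q y => y < a q ∨ (τ q)[y]? ≠ some true) ?_ hx
  exact or (lt (by fun_prop) (by fun_prop)) (ne (by fun_prop) (by fun_prop))

/-! ### The approximation -/

section approx

variable (V : Str → ℕ →. Str)

/-- The unary string of `v` has a short program. -/
def Comp (q : ℕ × ℕ) : Prop := ∃ p : Str, p.length < 2 * q.1 ∧ List.replicate q.2 true ∈ V p 0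

variable {V}

lemma comp_re (hV : IsMachine V) : REPred (Comp V) := by
  refine ex (p := fun (q : ℕ × ℕ) (p : Str) => p.length < 2 * q.1 ∧
    List.replicate q.2 true ∈ V p 0) (and (lt (by fun_prop) (by fun_prop)) ?_)
  exact comp (re_graph hV) (f := fun x : (ℕ × ℕ) × Str => ((x.2, 0), List.replicate x.1.2 true))
    (by fun_prop)

lemma exists_incomp (m : ℕ) : ∃ v, v < 2 ^ (2 * m) ∧ ¬ Comp V (m, v) := by
  by_contra hcon
  push Not at hcon
  have h1 : ∀ v : ℕ, ∃ p : Str, v < 2 ^ (2 * m) →
      p.length < 2 * m ∧ List.replicate v true ∈ V p 0 := by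
    intro v
    by_cases hv : v < 2 ^ (2 * m)
    · obtain ⟨p, hp⟩ := hcon v hv
      exact ⟨p, fun _ => hp⟩
    · exact ⟨[], fun h => absurd h hv⟩
  choose P hP using h1
  refine pigeon (2 * m) P (fun v hv => (hP v hv).1) ?_
  intro v hv v' hv' h
  have e1 := (hP v hv).2
  rw [h] at e1
  have := Part.mem_unique e1 (hP v' hv').2
  simpa using congrArg List.length this

variable (V) (t : ℕ × ℕ → ℕ → Bool)

open Classical in
/-- The first incompressible number. -/
noncomputable def vf (m : ℕ) : ℕ :=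
  Nat.find (p := fun v => ¬ Comp V (m, v)) (by obtain ⟨v, -, h⟩ := exists_incomp (V := V) m; exact ⟨v, h⟩)

lemma vf_not (m : ℕ) : ¬ Comp V (m, vf V m) := by
  classical
  exact Nat.find_spec (p := fun v => ¬ Comp V (m, v)) _

lemma vf_lt (m : ℕ) : vf V m < 2 ^ (2 * m) := by
  classical
  obtain ⟨v, hv, h⟩ := exists_incomp (V := V) m
  exact lt_of_le_of_lt (Nat.find_min' (p := fun v => ¬ Comp V (m, v)) _ h) hv

lemma comp_of_lt {m v : ℕ} (h : v < vf V m) : Comp V (m, v) := by
  classical
  by_contra hc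
  exact absurd (Nat.find_min' (p := fun v => ¬ Comp V (m, v)) _ hc) (by
    unfold vf at h
    exact not_le.2 h)

variable {V} {t}
variable (ht : ∀ q, Comp V q ↔ ∃ s, t q s = true)

/-- Not seen to be compressible before stage `s`. -/
def Ok (t : ℕ × ℕ → ℕ → Bool) (m s v : ℕ) : Prop := ∀ s' < s, t (m, v) s' ≠ true

include ht in
lemma ok_vf (m s : ℕ) : Ok t m s (vf V m) := by
  intro s' _ h
  exact vf_not V m ((ht _).2 ⟨s', h⟩)

open Classical in
/-- The stage `s` approximation. -/
noncomputable def vs (ht : ∀ q, Comp V q ↔ ∃ s, t q s = true) (m s : ℕ) : ℕ :=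
  Nat.find (p := fun v => Ok t m s v) ⟨_, ok_vf ht m s⟩

lemma vs_ok (m s : ℕ) : Ok t m s (vs ht m s) := by
  classical
  exact Nat.find_spec (p := fun v => Ok t m s v) _

lemma vs_le_of_ok {m s v : ℕ} (h : Ok t m s v) : vs ht m s ≤ v := by
  classical
  exact Nat.find_min' (p := fun v => Ok t m s v) _ h

lemma vs_le (m s : ℕ) : vs ht m s ≤ vf V m := vs_le_of_ok ht (ok_vf ht m s)

lemma vs_mono (m : ℕ) {s s' : ℕ} (h : s ≤ s') : vs ht m s ≤ vs ht m s' :=
  vs_le_of_ok ht fun u hu => vs_ok ht m s' u (by omega)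

lemma vs_lim (m : ℕ) : ∃ s, vs ht m s = vf V m := by
  classical
  have h1 : ∀ v, ∃ s, v < vf V m → t (m, v) s = true := by
    intro v
    by_cases hv : v < vf V m
    · obtain ⟨s, hs⟩ := (ht _).1 (comp_of_lt V hv)
      exact ⟨s, fun _ => hs⟩
    · exact ⟨0, fun h => absurd h hv⟩
  choose S hS using h1
  refine ⟨(Finset.range (vf V m)).sup S + 1, le_antisymm (vs_le ht m _) ?_⟩
  by_contra hcon
  push Not at hcon
  refine vs_ok ht m _ (S _) ?_ (hS _ hcon)
  exact Nat.lt_succ_of_le (Finset.le_sup (f := S) (Finset.mem_range.2 hcon))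

lemma vs_comp (htc : Computable₂ t) : Computable fun q : ℕ × ℕ => vs ht q.1 q.2 := by
  classical
  refine computable_of_graph ?_
  have h1 : REPred fun x : (ℕ × ℕ) × ℕ => Ok t x.1.1 x.1.2 x.2 ∧
      ∀ v < x.2, ∃ s', s' < x.1.2 ∧ t (x.1.1, v) s' = true := by
    refine and ?_ ?_
    · refine all_lt (p := fun (x : (ℕ × ℕ) × ℕ) s' => t (x.1.1, x.2) s' ≠ true)
        (ne ?_ (cconst _)) (by fun_prop)
      exact htc.comp (by fun_prop) (by fun_prop)
    · refine all_lt (p := fun (x : (ℕ × ℕ) × ℕ) v => ∃ s', s' < x.1.2 ∧ t (x.1.1, v) s' = true)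
        ?_ (by fun_prop)
      refine ex (p := fun (y : ((ℕ × ℕ) × ℕ) × ℕ) s' => s' < y.1.1.2 ∧
        t (y.1.1.1, y.2) s' = true) (and (lt (by fun_prop) (by fun_prop)) (of_bool ?_))
      exact htc.comp (by fun_prop) (by fun_prop)
  refine h1.of_eq fun x => ?_
  constructor
  · rintro ⟨h2, h3⟩
    refine le_antisymm (vs_le_of_ok ht h2) ?_
    by_contra hcon
    push Not at hcon
    obtain ⟨s', hs', hh⟩ := h3 _ hcon
    exact vs_ok ht _ _ s' hs' hh
  · intro h
    rw [← h]
    refine ⟨vs_ok ht _ _, fun v hv => ?_⟩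
    by_contra hcon
    push Not at hcon
    exact absurd (vs_le_of_ok ht hcon) (not_le.2 hv)

open Classical in
/-- First stage at which the high half is correct. -/
noncomputable def t1 (m : ℕ) : ℕ :=
  Nat.find (p := fun s => vs ht m s / 2 ^ m = vf V m / 2 ^ m)
    (by obtain ⟨s, hs⟩ := vs_lim ht m; exact ⟨s, by rw [hs]⟩)

open Classical in
/-- First stage at which the approximation is correct. -/
noncomputable def t2 (m : ℕ) : ℕ := Nat.find (vs_lim ht m)

lemma t1_spec {m s : ℕ} (h : t1 ht m ≤ s) : vs ht m s / 2 ^ m = vf V m / 2 ^ m := by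
  classical
  refine le_antisymm (Nat.div_le_div_right (vs_le ht m s)) ?_
  have h1 : vs ht m (t1 ht m) / 2 ^ m = vf V m / 2 ^ m :=
    Nat.find_spec (p := fun s => vs ht m s / 2 ^ m = vf V m / 2 ^ m) _
  rw [← h1]
  exact Nat.div_le_div_right (vs_mono ht m h)

lemma t1_min {m s : ℕ} (h : s < t1 ht m) : vs ht m s / 2 ^ m ≠ vf V m / 2 ^ m := by
  classical
  exact Nat.find_min (p := fun s => vs ht m s / 2 ^ m = vf V m / 2 ^ m) _ h

lemma t2_spec {m s : ℕ} (h : t2 ht m ≤ s) : vs ht m s = vf V m := by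
  classical
  refine le_antisymm (vs_le ht m s) ?_
  have h1 : vs ht m (t2 ht m) = vf V m := Nat.find_spec (vs_lim ht m)
  rw [← h1]
  exact vs_mono ht m h

/-! ### The two functionals -/

/-- Programs `1^a 0 e`: the oracle gives the high half, `e` is the low half. -/
def ax1 (τ p σ : Str) : Prop := ∃ z : ℕ × Str × ℕ, p = List.replicate z.1 true ++ false :: z.2.1 ∧
  Next τ z.1 z.2.2 ∧
  σ = List.replicate (vs ht z.2.1.length z.2.2 / 2 ^ z.2.1.length * 2 ^ z.2.1.length + val z.2.1) true

/-- Programs `1^a 0 e`: `e` is the high half, the oracle gives the low half. -/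
def ax2 (τ p σ : Str) : Prop := ∃ z : ℕ × Str × ℕ × ℕ,
  p = List.replicate z.1 true ++ false :: z.2.1 ∧
  (vs ht z.2.1.length z.2.2.1 / 2 ^ z.2.1.length = val z.2.1 ∧
    ∀ s < z.2.2.1, vs ht z.2.1.length s / 2 ^ z.2.1.length ≠ val z.2.1) ∧
  Next τ (max z.1 z.2.2.1) z.2.2.2 ∧
  σ = List.replicate (vs ht z.2.1.length z.2.2.2) true

lemma ax1_re (htc : Computable₂ t) :
    REPred fun q : Str × Str × Str => ax1 ht q.1 q.2.1 q.2.2 := by
  have hv := vs_comp ht htc
  refine ex (p := fun (q : Str × Str × Str) (z : ℕ × Str × ℕ) =>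
    q.2.1 = List.replicate z.1 true ++ false :: z.2.1 ∧ Next q.1 z.1 z.2.2 ∧
    q.2.2 = List.replicate (vs ht z.2.1.length z.2.2 / 2 ^ z.2.1.length * 2 ^ z.2.1.length +
      val z.2.1) true) ?_
  have hv' : Computable fun x : (Str × Str × Str) × (ℕ × Str × ℕ) =>
      vs ht x.2.2.1.length x.2.2.2 :=
    hv.comp (g := fun x : (Str × Str × Str) × (ℕ × Str × ℕ) => (x.2.2.1.length, x.2.2.2))
      (by fun_prop)
  refine and (eq (by fun_prop) (by fun_prop)) (and (next_re ?_ ?_ ?_) (eq ?_ ?_)) <;> fun_prop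

lemma ax2_re (htc : Computable₂ t) :
    REPred fun q : Str × Str × Str => ax2 ht q.1 q.2.1 q.2.2 := by
  have hv := vs_comp ht htc
  refine ex (p := fun (q : Str × Str × Str) (z : ℕ × Str × ℕ × ℕ) =>
    q.2.1 = List.replicate z.1 true ++ false :: z.2.1 ∧
    (vs ht z.2.1.length z.2.2.1 / 2 ^ z.2.1.length = val z.2.1 ∧
      ∀ s < z.2.2.1, vs ht z.2.1.length s / 2 ^ z.2.1.length ≠ val z.2.1) ∧
    Next q.1 (max z.1 z.2.2.1) z.2.2.2 ∧
    q.2.2 = List.replicate (vs ht z.2.1.length z.2.2.2) true) ?_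
  have hv1 : Computable fun x : (Str × Str × Str) × (ℕ × Str × ℕ × ℕ) =>
      vs ht x.2.2.1.length x.2.2.2.1 :=
    hv.comp (g := fun x : (Str × Str × Str) × (ℕ × Str × ℕ × ℕ) =>
      (x.2.2.1.length, x.2.2.2.1)) (by fun_prop)
  have hv2 : Computable fun x : (Str × Str × Str) × (ℕ × Str × ℕ × ℕ) =>
      vs ht x.2.2.1.length x.2.2.2.2 :=
    hv.comp (g := fun x : (Str × Str × Str) × (ℕ × Str × ℕ × ℕ) =>
      (x.2.2.1.length, x.2.2.2.2)) (by fun_prop)
  refine and (eq (by fun_prop) (by fun_prop)) (and (and (eq ?_ ?_) ?_)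
    (and (next_re ?_ ?_ ?_) (eq ?_ ?_)))
  · fun_prop
  · fun_prop
  · refine all_lt (p := fun (x : (Str × Str × Str) × (ℕ × Str × ℕ × ℕ)) s =>
      vs ht x.2.2.1.length s / 2 ^ x.2.2.1.length ≠ val x.2.2.1) (ne ?_ ?_) (by fun_prop)
    · have hv3 : Computable fun x : ((Str × Str × Str) × (ℕ × Str × ℕ × ℕ)) × ℕ =>
          vs ht x.1.2.2.1.length x.2 :=
        hv.comp (g := fun x : ((Str × Str × Str) × (ℕ × Str × ℕ × ℕ)) × ℕ =>
          (x.1.2.2.1.length, x.2)) (by fun_prop)
      fun_prop
    · fun_prop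
  · fun_prop
  · fun_prop
  · fun_prop
  · fun_prop
  · fun_prop

/-- The first functional. -/
def M1 (htc : Computable₂ t) : OracleMachine where
  ax := ax1 ht
  re := ax1_re ht htc
  cons := by
    rintro τ τ' p σ σ' hτ ⟨⟨a, e, x⟩, h1, h2, h3⟩ ⟨⟨a', e', x'⟩, h1', h2', h3'⟩
    simp only at h1 h2 h3 h1' h2' h3'
    obtain ⟨rfl, rfl⟩ := decomp (h1.symm.trans h1')
    obtain rfl := next_unique hτ h2 h2'
    rw [h3, h3']

/-- The second functional. -/
def M2 (htc : Computable₂ t) : OracleMachine where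
  ax := ax2 ht
  re := ax2_re ht htc
  cons := by
    rintro τ τ' p σ σ' hτ ⟨⟨a, e, b, x⟩, h1, ⟨hb, hb2⟩, h2, h3⟩
      ⟨⟨a', e', b', x'⟩, h1', ⟨hb', hb2'⟩, h2', h3'⟩
    simp only at h1 hb hb2 h2 h3 h1' hb' hb2' h2' h3'
    obtain ⟨rfl, rfl⟩ := decomp (h1.symm.trans h1')
    have hbb : b = b' := by
      rcases lt_trichotomy b b' with h | h | h
      · exact absurd hb (hb2' b h)
      · exact h
      · exact absurd hb' (hb2 b' h)
    subst hbb
    obtain rfl := next_unique hτ h2 h2'
    rw [h3, h3']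

/-! ### The set `A` -/

/-- Block boundaries. -/
noncomputable def T : ℕ → ℕ
  | 0 => 0
  | i + 1 => max (max (T i) (t1 ht (2 * T i + i))) (t2 ht (2 * T i + i))

/-- Parameter of block `i`. -/
noncomputable def mm (i : ℕ) : ℕ := 2 * T ht i + i

noncomputable def S (i : ℕ) : ℕ := max (T ht i) (t1 ht (mm ht i))

lemma T_succ (i : ℕ) : T ht (i + 1) = max (S ht i) (t2 ht (mm ht i)) := rfl

lemma T_le_S (i : ℕ) : T ht i ≤ S ht i := le_max_left _ _

lemma S_le_T (i : ℕ) : S ht i ≤ T ht (i + 1) := by rw [T_succ]; exact le_max_left _ _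

lemma T_mono {i j : ℕ} (h : i ≤ j) : T ht i ≤ T ht j :=
  monotone_nat_of_le_succ (fun n => (T_le_S ht n).trans (S_le_T ht n)) h

/-- The set `A`. -/
def SetA : Set ℕ := {x | ∃ i, S ht i ≤ x ∧ x < T ht (i + 1)}

lemma co_le_of_out {U : OracleMachine} {X : Set ℕ} {p σ : Str} (h : U.Out X p σ) :
    CO U X σ ≤ p.length := iInf₂_le p h

/-- The string of block `i`. -/
noncomputable def sig (i : ℕ) : Str := List.replicate (vf V (mm ht i)) true

lemma out1 (htc : Computable₂ t) {X : Set ℕ} (hX : X.Infinite) (hXA : X ⊆ SetA ht) (i : ℕ) :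
    CO (M1 ht htc) X (sig ht i) ≤ (T ht i + 1 + mm ht i : ℕ) := by
  obtain ⟨x, hxX, hx⟩ := exists_next hX (T ht i)
  set m := mm ht i with hm
  obtain ⟨e, he, hve⟩ := val_surj m (vf V m % 2 ^ m) (Nat.mod_lt _ (by positivity))
  have hxt : t1 ht m ≤ x := by
    obtain ⟨j, hj1, hj2⟩ := hXA hxX
    have hij : i ≤ j := by
      by_contra hcon
      have := T_mono ht (show j + 1 ≤ i by omega)
      have := hx.1
      omega
    have h1 : S ht i ≤ S ht j := by
      rcases Nat.eq_or_lt_of_le hij with h | h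
      · rw [h]
      · exact (S_le_T ht i).trans ((T_mono ht h).trans (T_le_S ht j))
    have h2 : t1 ht m ≤ S ht i := le_max_right _ _
    omega
  have hout : (M1 ht htc).Out X (List.replicate (T ht i) true ++ false :: e) (sig ht i) := by
    refine ⟨x + 1, (T ht i, e, x), rfl, hx, ?_⟩
    unfold sig
    rw [he, t1_spec ht hxt, hve, mul_comm, Nat.div_add_mod]
  refine (co_le_of_out hout).trans ?_
  rw [List.length_append, List.length_replicate, List.length_cons, he]
  exact_mod_cast (by omega)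

lemma out2 (htc : Computable₂ t) {X : Set ℕ} (hX : X.Infinite) (hXA : X ⊆ (SetA ht)ᶜ) (i : ℕ) :
    CO (M2 ht htc) X (sig ht i) ≤ (T ht i + 1 + mm ht i : ℕ) := by
  obtain ⟨x, hxX, hx⟩ := exists_next hX (S ht i)
  set m := mm ht i with hm
  have hlt : vf V m / 2 ^ m < 2 ^ m := by
    rw [Nat.div_lt_iff_lt_mul (by positivity), ← pow_add, ← two_mul]
    exact vf_lt V m
  obtain ⟨e, he, hve⟩ := val_surj m (vf V m / 2 ^ m) hlt
  have hxt : t2 ht m ≤ x := by
    by_contra hcon
    refine hXA hxX ⟨i, hx.1, ?_⟩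
    rw [T_succ]
    exact lt_of_lt_of_le (not_le.1 hcon) (le_max_right _ _)
  have hout : (M2 ht htc).Out X (List.replicate (T ht i) true ++ false :: e) (sig ht i) := by
    refine ⟨x + 1, (T ht i, e, t1 ht m, x), rfl, ?_, hx, ?_⟩
    · simp only [he, hve]
      exact ⟨t1_spec ht le_rfl, fun s hs => t1_min ht hs⟩
    · unfold sig
      rw [he, t2_spec ht hxt]
  refine (co_le_of_out hout).trans ?_
  rw [List.length_append, List.length_replicate, List.length_cons, he]
  exact_mod_cast (by omega)

end approx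

/-! ### Universal machines exist -/

lemma prefix_iff_get (l l' : Str) : l <+: l' ↔ ∀ i < l.length, l[i]? = l'[i]? := by
  constructor
  · rintro ⟨t, rfl⟩ i hi
    rw [List.getElem?_append_left hi]
  · intro h
    induction l generalizing l' with
    | nil => exact List.nil_prefix
    | cons a l ih =>
      have h0 := h 0 (by simp)
      cases l' with
      | nil => simp at h0
      | cons b l' =>
        simp only [List.getElem?_cons_zero, Option.some.injEq] at h0
        subst h0
        rw [List.cons_prefix_cons]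
        refine ⟨rfl, ih l' fun i hi => ?_⟩
        have := h (i + 1) (by simpa using hi)
        simpa using this

lemma not_prefix_re {α : Type*} [Primcodable α] {f g : α → Str} (hf : Computable f)
    (hg : Computable g) : REPred fun q => ¬ f q <+: g q := by
  have h1 : REPred fun q => ∃ i, i < (f q).length ∧ (f q)[i]? ≠ (g q)[i]? :=
    ex (p := fun q i => i < (f q).length ∧ (f q)[i]? ≠ (g q)[i]?)
      (and (lt (by fun_prop) (by fun_prop)) (ne (by fun_prop) (by fun_prop)))
  refine h1.of_eq fun q => ?_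
  rw [prefix_iff_get]
  push Not
  rfl

/-- No conflict between two axioms. -/
def NoConf (t t' : Str × Str × Str) : Prop :=
  t.2.1 ≠ t'.2.1 ∨ t.2.2 = t'.2.2 ∨ (¬ t.1 <+: t'.1 ∧ ¬ t'.1 <+: t.1)

/-- The axiom enumerated at step `k` by the `e`-th enumeration. -/
def En (e k : ℕ) (t : Str × Str × Str) : Prop :=
  decode k.unpair.1 = some t ∧ wst (Str × Str × Str) e k.unpair.2 t = true

/-- No axiom enumerated at step `k` conflicts with `t`. -/
def Fine (e k : ℕ) (t : Str × Str × Str) : Prop :=
  (decode k.unpair.1 : Option (Str × Str × Str)) = none ∨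
    ∃ t', decode k.unpair.1 = some t' ∧ (wst (Str × Str × Str) e k.unpair.2 t' = false ∨ NoConf t t')

lemma fine_spec {e k : ℕ} {t t' : Str × Str × Str} (h : Fine e k t) (h' : En e k t') :
    NoConf t t' := by
  rcases h with h | ⟨t'', h1, h2⟩
  · have h2 := h'.1
    rw [h] at h2
    exact absurd h2 (by simp)
  · rw [h'.1] at h1
    obtain rfl := Option.some.inj h1
    rcases h2 with h2 | h2
    · rw [h'.2] at h2
      exact absurd h2 (by simp)
    · exact h2

/-- The accepted axioms of the `e`-th enumeration. -/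
def Acc (e : ℕ) (t : Str × Str × Str) : Prop := ∃ k, En e k t ∧ ∀ k' < k, Fine e k' t

lemma acc_noConf {e : ℕ} {t t' : Str × Str × Str} (h : Acc e t) (h' : Acc e t') : NoConf t t' := by
  obtain ⟨k, hk, hf⟩ := h
  obtain ⟨k', hk', hf'⟩ := h'
  rcases lt_trichotomy k k' with hlt | heq | hlt
  · rcases fine_spec (hf' k hlt) hk with h | h | h
    · exact Or.inl h.symm
    · exact Or.inr (Or.inl h.symm)
    · exact Or.inr (Or.inr ⟨h.2, h.1⟩)
  · subst heq
    have := hk.1.symm.trans hk'.1
    obtain rfl := Option.some.inj this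
    exact Or.inr (Or.inl rfl)
  · exact fine_spec (hf k' hlt) hk'

lemma acc_re : REPred fun q : ℕ × (Str × Str × Str) => Acc q.1 q.2 := by
  have hw : ∀ {α : Type} [Primcodable α] (e s : α → ℕ) (t : α → Str × Str × Str),
      Computable e → Computable s → Computable t →
      Computable fun a => wst (Str × Str × Str) (e a) (s a) (t a) := by
    intro α _ e s t he hs ht
    exact wst_comp.comp (f := fun p : (ℕ × ℕ) × (Str × Str × Str) =>
      wst (Str × Str × Str) p.1.1 p.1.2 p.2) (g := fun a => ((e a, s a), t a)) (by fun_prop)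
  refine ex (p := fun (q : ℕ × (Str × Str × Str)) k => En q.1 k q.2 ∧ ∀ k' < k, Fine q.1 k' q.2) ?_
  refine and (and (eq ?_ ?_) (of_bool (hw _ _ _ ?_ ?_ ?_))) ?_
  · fun_prop
  · fun_prop
  · fun_prop
  · fun_prop
  · fun_prop
  refine all_lt (p := fun (x : (ℕ × (Str × Str × Str)) × ℕ) k' => Fine x.1.1 k' x.1.2) ?_
    (by fun_prop)
  refine or (eq ?_ ?_) ?_
  · fun_prop
  · fun_prop
  refine ex (p := fun (y : ((ℕ × (Str × Str × Str)) × ℕ) × ℕ) t' =>
    decode y.2.unpair.1 = some t' ∧ (wst (Str × Str × Str) y.1.1.1 y.2.unpair.2 t' = false ∨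
      NoConf y.1.1.2 t')) ?_
  refine and (eq ?_ ?_) (or (eq (hw _ _ _ ?_ ?_ ?_) ?_)
    (or (ne ?_ ?_) (or (eq ?_ ?_) (and (not_prefix_re ?_ ?_) (not_prefix_re ?_ ?_)))))
  all_goals fun_prop

/-- The universal oracle machine: programs `1^e 0 p`. -/
def univ : OracleMachine where
  ax τ p σ := ∃ z : ℕ × Str, p = List.replicate z.1 true ++ false :: z.2 ∧ Acc z.1 (τ, z.2, σ)
  re := by
    refine ex (p := fun (q : Str × Str × Str) (z : ℕ × Str) =>
      q.2.1 = List.replicate z.1 true ++ false :: z.2 ∧ Acc z.1 (q.1, z.2, q.2.2)) ?_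
    refine and (eq (by fun_prop) (by fun_prop)) ?_
    exact comp acc_re (f := fun x : (Str × Str × Str) × (ℕ × Str) =>
      (x.2.1, (x.1.1, x.2.2, x.1.2.2))) (by fun_prop)
  cons := by
    rintro τ τ' p σ σ' hτ ⟨⟨e, q⟩, h1, h2⟩ ⟨⟨e', q'⟩, h1', h2'⟩
    simp only at h1 h2 h1' h2'
    obtain ⟨rfl, rfl⟩ := decomp (h1.symm.trans h1')
    rcases acc_noConf h2 h2' with h | h | h
    · exact absurd rfl h
    · exact h
    · exact absurd hτ h.1

lemma exists_of_CO {U : OracleMachine} {X : Set ℕ} {σ : Str} {n : ℕ} (h : CO U X σ = n) :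
    ∃ p : Str, U.Out X p σ ∧ p.length = n := by
  by_contra hcon
  push Not at hcon
  have hex : ∃ p : Str, U.Out X p σ := by
    by_contra hn
    push Not at hn
    have : CO U X σ = ⊤ := by
      unfold CO
      simp [hn]
    rw [this] at h
    exact absurd h (by simp)
  have h1 : ((n + 1 : ℕ) : ℕ∞) ≤ CO U X σ := by
    unfold CO
    refine le_iInf₂ fun p hp => ?_
    have h2 : (n : ℕ∞) ≤ p.length := by
      rw [← h]
      exact iInf₂_le p hp
    have h3 : n ≤ p.length := by exact_mod_cast h2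
    have h4 := hcon p hp
    exact_mod_cast (by omega : n + 1 ≤ p.length)
  rw [h] at h1
  have : n + 1 ≤ n := by exact_mod_cast h1
  omega

/-- Sanity check: an optimal oracle machine exists. -/
theorem exists_optimal : ∃ U : OracleMachine, U.Optimal := by
  refine ⟨univ, fun U' => ?_⟩
  obtain ⟨e, he⟩ := wst_univ (α := Str × Str × Str) U'.re
  have hacc : ∀ t, U'.ax t.1 t.2.1 t.2.2 → Acc e t := by
    intro t ht
    obtain ⟨s, hs⟩ := (he t).1 ht
    refine ⟨Nat.pair (encode t) s, ⟨by simp, by simpa using hs⟩, fun k' _ => ?_⟩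
    rcases hd : (decode k'.unpair.1 : Option (Str × Str × Str)) with _ | t'
    · exact Or.inl hd
    · refine Or.inr ⟨t', hd, ?_⟩
      rcases hw : wst (Str × Str × Str) e k'.unpair.2 t' with _ | _
      · exact Or.inl rfl
      · refine Or.inr ?_
        have ht' : U'.ax t'.1 t'.2.1 t'.2.2 := (he t').2 ⟨_, hw⟩
        by_contra hcon
        unfold NoConf at hcon
        push Not at hcon
        obtain ⟨h1, h2, h3⟩ := hcon
        by_cases hp : t.1 <+: t'.1
        · exact h2 (U'.cons _ _ _ _ _ hp ht (by rw [h1]; exact ht'))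
        · exact h2 (U'.cons _ _ _ _ _ (h3 hp) ht' (by rw [← h1]; exact ht)).symm
  refine ⟨e + 1, fun X σ => ?_⟩
  rcases hc : CO U' X σ with _ | n
  · exact le_top
  · obtain ⟨p, ⟨m, hm⟩, hpl⟩ := exists_of_CO (n := n) hc
    have hout : univ.Out X (List.replicate e true ++ false :: p) σ :=
      ⟨m, (e, p), rfl, hacc (pre X m, p, σ) hm⟩
    refine (co_le_of_out hout).trans ?_
    rw [List.length_append, List.length_replicate, List.length_cons, hpl]
    change ((e + (n + 1) : ℕ) : ℕ∞) ≤ (n : ℕ∞) + ((e + 1 : ℕ) : ℕ∞)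
    exact_mod_cast (by omega)

/-- **Theorem.** For all universal machines there is a set `A` such that for every threshold `N` the
difference `C(σ | ≥ N) - C(σ | RT^1_2(A))` is unbounded. -/
theorem result (U : OracleMachine) (hU : U.Optimal) (V : Str → ℕ →. Str) (hV : OptimalM V) :
    ∃ A : Set ℕ, ∀ N c : ℕ, ∃ σ : Str, Cfam U σ (RT12 A) + c < Cge V σ N := by
  classical
  obtain ⟨t, htc, ht⟩ := re_iff.1 (comp_re hV.1)
  obtain ⟨c1, hc1⟩ := hU (M1 ht htc)
  obtain ⟨c2, hc2⟩ := hU (M2 ht htc)
  refine ⟨SetA ht, fun N c => ?_⟩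
  -- the machine which ignores its condition and uses `N`
  obtain ⟨d, hd⟩ := hV.2 (fun p _ => V p N) (by
    have : Computable fun q : Str × ℕ => (q.1, N) := by fun_prop
    exact Partrec.comp hV.1 this)
  set i : ℕ := 2 * (c1 + c2 + c + d + 2) with hi
  refine ⟨sig ht i, ?_⟩
  have hup : Cfam U (sig ht i) (RT12 (SetA ht)) ≤ (T ht i + 1 + mm ht i + (c1 + c2) : ℕ) := by
    unfold Cfam
    refine iSup₂_le fun X hX => ?_
    rcases hX with ⟨hinf, h | h⟩
    · refine (hc1 X _).trans ((add_le_add_left (out1 ht htc hinf h i) _).trans ?_)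
      exact_mod_cast (by omega)
    · refine (hc2 X _).trans ((add_le_add_left (out2 ht htc hinf h i) _).trans ?_)
      exact_mod_cast (by omega)
  have hlow : ((2 * mm ht i : ℕ) : ℕ∞) ≤ CM V (sig ht i) N + d := by
    have h0 : ((2 * mm ht i : ℕ) : ℕ∞) ≤ CM V (sig ht i) 0 := by
      unfold CM
      refine le_iInf₂ fun p hp => ?_
      by_contra hcon
      have h1 : p.length < 2 * mm ht i := by
        by_contra h2
        exact hcon (by exact_mod_cast (not_lt.1 h2))
      exact vf_not V (mm ht i) ⟨p, h1, hp⟩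
    exact h0.trans (hd (sig ht i) 0)
  have hge : CM V (sig ht i) N ≤ Cge V (sig ht i) N :=
    le_iSup₂ (f := fun n (_ : n ≥ N) => CM V (sig ht i) n) N le_rfl
  refine lt_of_lt_of_le ?_ hge
  by_contra hcon
  rw [not_lt] at hcon
  have h3 : ((2 * mm ht i : ℕ) : ℕ∞) ≤ ((T ht i + 1 + mm ht i + (c1 + c2) + c + d : ℕ) : ℕ∞) := by
    refine hlow.trans ?_
    push_cast
    refine add_le_add_left (hcon.trans ?_) _
    refine add_le_add_left (hup.trans ?_) _
    push_cast
    exact le_rfl
  have h4 : 2 * mm ht i ≤ T ht i + 1 + mm ht i + (c1 + c2) + c + d := by exact_mod_cast h3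
  have h5 : mm ht i = 2 * T ht i + i := rfl
  omega

end Pool.Agent.Results.MP_7b562e_lc.NoThreshold
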